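import Pool.Agent.H16.SC.Targets

/-!
Module KNT (kernel theorem, block B1): the Hall-Rado criterion from the key lemma.
-/

namespace Pool.Agent.H94.SC

open SCB Filter Topology

theorem nt_aux (hNL : T_NL) (hNZ : T_NZ) (hCN : T_CN) {N P κ : Type} [NormedAddCommGroup N]
    [NormedSpace ℝ N] [FiniteDimensional ℝ N] [DecidableEq κ] {n : ℕ} (X : Geo N P n) (A : N)
    (hA : A ∈ X.G) (B : κ → N) (hB : ∀ i, B i ∈ X.Nef) (T : Finset κ) :
    ∀ Z : Multiset N, (∀ a ∈ Z, a ∈ X.Nef) → X.Nz A Z →
      (∀ J : Finset κ, J ⊆ T → J.Nonempty →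
        X.Nz A (Z + Multiset.replicate J.card (∑ i ∈ J, B i))) →
      X.Nz A (Z + mss T B) := by
  have hadd := (hCN N P n X).1
  have hsmul := (hCN N P n X).2.1
  have hsum : ∀ J : Finset κ, J.Nonempty → ∑ i ∈ J, B i ∈ X.Nef := by
    intro J hJ
    induction hJ using Finset.Nonempty.cons_induction with
    | singleton a => simpa using hB a
    | cons a s ha hs ih =>
      rw [Finset.sum_cons]
      exact hadd _ (hB a) _ ih
  induction T using Finset.induction_on with
  | empty =>
    intro Z _ hZ _
    simpa [mss_empty] using hZ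
  | insert i T hi ih =>
    intro Z hZn hZ hJ
    have h1 : X.Nz A (B i ::ₘ Z) := by
      have := hJ {i} (by simp) (by simp)
      simp only [Finset.card_singleton, Finset.sum_singleton, Multiset.replicate_one] at this
      rwa [Multiset.add_comm, Multiset.singleton_add] at this
    have h2 := ih (B i ::ₘ Z) (by
      intro a ha
      rcases Multiset.mem_cons.mp ha with h | h
      · rw [h]; exact hB i
      · exact hZn a h) h1 (by
      intro J hJT hJn
      have h3 := hNL N P n X A hA J.card Z (B i) (∑ j ∈ J, B j) hZn (hB i) (hsum J hJn)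
        (hJ J (hJT.trans (Finset.subset_insert _ _)) hJn) h1 (by
          have hiJ : i ∉ J := fun h => hi (hJT h)
          have := hJ (insert i J) (Finset.insert_subset_insert _ hJT) (Finset.insert_nonempty _ _)
          rwa [Finset.card_insert_of_notMem hiJ, Finset.sum_insert hiJ] at this)
      simpa [Multiset.cons_add] using h3)
    rw [mss_insert _ _ hi]
    have h4 : Z + (B i ::ₘ mss T B) = B i ::ₘ Z + mss T B := by
      rw [Multiset.add_cons, Multiset.cons_add]
    rw [h4]
    exact h2

theorem knt (hNL : T_NL) (hNZ : T_NZ) (hCN : T_CN) : T_NT := by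
  intro N P κ _ _ _ _ n X A hA B hB hcard hJ
  classical
  have h0 : X.Nz A (0 : Multiset N) := (hNZ N P n X A hA).2.2.2 0 (by simp) (by simp)
  have := nt_aux hNL hNZ hCN X A hA B hB Finset.univ 0 (by simp) h0 (by
    intro J _ hJn
    simpa using hJ J hJn)
  simpa [ms_eq_mss] using this

end Pool.Agent.H94.SC
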