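import Pool.Agent.H94.SC.KRP

/-!
Module KP (kernel theorem, block B1): positivity from the Hall-Rado criterion.
-/

namespace Pool.Agent.H94.SC

open SCB Filter Topology

theorem kp (hCN : T_CN) (hNT : T_NT) (hNZ : T_NZ) : T_P := by
  intro N P ι _ _ _ _ n X A hA hn L hL i
  classical
  obtain ⟨hadd, hsmul, hGA, hamp, hampadd, _⟩ := hCN N P n X
  have hAN : A ∈ X.Nef := interior_subset (hGA A hA)
  have h0 : (0 : N) ∈ X.Nef := by simpa using hsmul A hAN 0 le_rfl
  let B : ι ⊕ Bool → N := Sum.elim L fun _ => L i
  have hB : ∀ k, B k ∈ X.Nef := by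
    rintro (k | k)
    · exact hL.1 k
    · exact hL.1 i
  have hms : ms B = L i ::ₘ L i ::ₘ ms L := by
    have h1 : (Finset.univ : Finset (ι ⊕ Bool)) =
        (Finset.univ : Finset ι).disjSum (Finset.univ : Finset Bool) := by
      ext x; rcases x with x | x <;> simp
    unfold ms
    rw [h1, Finset.val_disjSum]
    unfold Multiset.disjSum
    rw [Multiset.map_add, Multiset.map_map, Multiset.map_map]
    have h2 : Multiset.map (B ∘ Sum.inr) (Finset.univ : Finset Bool).val = {L i, L i} := by
      rfl
    have h3 : B ∘ Sum.inl = L := rfl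
    rw [h2, h3, Multiset.add_comm]
    simp [Multiset.insert_eq_cons]
  have hcard : Fintype.card (ι ⊕ Bool) = n := by simp [Fintype.card_sum]; omega
  have key := hNT N P (ι ⊕ Bool) n X A hA B hB hcard.le (by
    intro J hJ
    -- the part of J in ι
    set J' : Finset ι := J.toLeft with hJ'
    set K : Finset Bool := J.toRight with hK
    have hJc : J.card = J'.card + K.card := by
      rw [hJ', hK, Finset.card_toLeft_add_card_toRight]
    have hKc : K.card ≤ 2 := by
      have := Finset.card_le_univ K
      simpa using this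
    have hsumJ : ∑ k ∈ J, B k = ∑ k ∈ J', L k + (K.card : ℝ) • L i := by
      rw [Finset.sum_sum_eq_sum_toLeft_add_sum_toRight]
      congr 1
      simp only [B, Sum.elim_inr, Finset.sum_const]
      rw [← Nat.cast_smul_eq_nsmul ℝ]
    have main : ∀ (S : Finset ι) (R : N), S.Nonempty → R ∈ X.Nef → J.card ≤ S.card + 2 →
        ∑ k ∈ J, B k = ∑ k ∈ S, L k + R →
        X.Nz A (Multiset.replicate J.card (∑ k ∈ J, B k)) := by
      intro S R hS hR hc hs
      have hSn : ∑ k ∈ S, L k ∈ X.Nef := nef_sum hCN X.G_nonempty _ _ fun k _ => hL.1 k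
      have h1 := hL.2 S hS
      obtain ⟨m, hm⟩ := Nat.exists_eq_add_of_le hc
      rw [hm, Multiset.replicate_add] at h1
      have h2 := (hNZ N P n X A hA).1 _ _ (by
        intro a ha; rw [Multiset.eq_of_mem_replicate ha]; exact hSn) (by
        intro a ha; rw [Multiset.eq_of_mem_replicate ha]; exact hSn) h1
      have h3 := (hNZ N P n X A hA).2.2.1 0 (∑ k ∈ S, L k) R J.card (by simp) hSn hR (by
        simpa using h2)
      rw [hs]
      simpa using h3
    by_cases hk : K.card = 0
    · refine main J' 0 ?_ h0 (by omega) ?_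
      · rw [← Finset.card_pos]
        have := Finset.card_pos.mpr hJ
        omega
      · rw [hsumJ, hk]; simp
    · by_cases hi : i ∈ J'
      · refine main J' ((K.card : ℝ) • L i) ⟨i, hi⟩ (hsmul _ (hL.1 i) _ (by positivity))
          (by omega) hsumJ
      · refine main (insert i J') (((K.card : ℝ) - 1) • L i) (Finset.insert_nonempty _ _)
          (hsmul _ (hL.1 i) _ ?_) ?_ ?_
        · have : (1 : ℝ) ≤ K.card := by exact_mod_cast Nat.one_le_iff_ne_zero.mpr hk
          linarith
        · rw [Finset.card_insert_of_notMem hi]; omega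
        · rw [hsumJ, Finset.sum_insert hi, sub_smul, one_smul]
          abel)
  obtain ⟨r, hr, hpos⟩ := key
  have : r = 0 := by rw [card_ms, hcard] at hr; omega
  rw [this] at hpos
  rw [← hms]
  simpa using hpos

end Pool.Agent.H94.SC
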