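import Pool.Agent.H16.SC.Targets

/-!
Module KRP (kernel theorem, block B1): replacing members of a supercritical family by the ample
class.
-/

namespace Pool.Agent.H94.SC

open SCB Filter Topology

theorem nef_sum {N P κ : Type} [NormedAddCommGroup N] [NormedSpace ℝ N]
    [FiniteDimensional ℝ N] {n : ℕ} {X : Geo N P n} (hCN : T_CN) (hne : X.G.Nonempty)
    (B : κ → N) (J : Finset κ) (hB : ∀ i ∈ J, B i ∈ X.Nef) : ∑ i ∈ J, B i ∈ X.Nef := by
  classical
  have hadd := (hCN N P n X).1
  have hsmul := (hCN N P n X).2.1
  have h0 : (0 : N) ∈ X.Nef := by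
    obtain ⟨g, hg⟩ := hne
    have := hsmul g (subset_closure hg) 0 le_rfl
    simpa using this
  induction J using Finset.induction_on with
  | empty => simpa using h0
  | insert a s ha ih =>
    rw [Finset.sum_insert ha]
    exact hadd _ (hB a (by simp)) _ (ih fun i hi => hB i (by simp [hi]))

theorem krp (hCN : T_CN) (hP : T_P) (hMO : T_MO) (hNZ : T_NZ) (hPM : T_PM) : T_RP := by
  intro N P ι _ _ _ _ _ n X A hA hn L hL S
  classical
  obtain ⟨hadd, hsmul, hGA, hamp, hampadd, _⟩ := hCN N P n X
  have hAA : A ∈ X.Amp := hGA A hA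
  have hAN : A ∈ X.Nef := interior_subset hAA
  have h0 : (0 : N) ∈ X.Nef := by simpa using hsmul A hAN 0 le_rfl
  have hnef : ∀ i, rep A S L i ∈ X.Nef := by
    intro i
    by_cases h : i ∈ S
    · simp [rep, h, hAN]
    · simp [rep, h, hL.1 i]
  refine ⟨⟨hnef, ?_⟩, ?_, ?_⟩
  · intro J hJ
    by_cases hJS : ∃ j ∈ J, j ∈ S
    · obtain ⟨j, hj, hjS⟩ := hJS
      have hsum : ∑ i ∈ J, rep A S L i ∈ X.Amp := by
        rw [← Finset.add_sum_erase _ _ hj]
        have h1 : rep A S L j = A := by simp [rep, hjS]
        rw [h1]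
        exact hampadd A hAA _ (nef_sum hCN X.G_nonempty _ _ fun i _ => hnef i)
      refine (hNZ N P n X A hA).2.2.2 _ ?_ ?_
      · rw [Multiset.card_replicate]
        have := Finset.card_le_univ J
        omega
      · intro a ha
        rw [Multiset.eq_of_mem_replicate ha]
        exact hsum
    · push Not at hJS
      have : ∑ i ∈ J, rep A S L i = ∑ i ∈ J, L i :=
        Finset.sum_congr rfl fun i hi => by simp [rep, hJS i hi]
      rw [this]
      exact hL.2 J hJ
  · intro i
    have hpos := hP N P ι n X A hA hn L hL i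
    have hW : X.PosM {L i, L i} := by
      refine (hPM N P n X).2.1 _ ?_
      intro a ha
      have : a = L i := by simpa using ha
      rw [this]; exact hL.1 i
    have := hMO N P ι n X {L i, L i} L (rep A S L) hW hL.1 hnef (by
      intro j
      by_cases hj : j ∈ S
      · obtain ⟨C, hC, hCx⟩ := hamp A hAA
        refine ⟨C * ‖-L j‖ + 1, by positivity, ?_⟩
        have h1 := hadd _ (hCx (-L j)) _ hAN
        have h2 : rep A S L j = A := by simp [rep, hj]
        rw [h2]
        have h3 : (C * ‖-L j‖ + 1) • A - L j = (C * ‖-L j‖) • A + -L j + A := by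
          rw [add_smul, one_smul]; abel
        rw [h3]; exact h1
      · refine ⟨1, one_pos, ?_⟩
        have h2 : rep A S L j = L j := by simp [rep, hj]
        rw [h2, one_smul, sub_self]
        exact h0) (by
      have : Multiset.card ({L i, L i} : Multiset N) = 2 := by simp
      omega) (by
      have h2 : ({L i, L i} : Multiset N) + ms L = L i ::ₘ L i ::ₘ ms L := by
        simp [Multiset.insert_eq_cons]
      rw [h2]; exact hpos)
    have h2 : ({L i, L i} : Multiset N) + ms (rep A S L) = L i ::ₘ L i ::ₘ ms (rep A S L) := by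
      simp [Multiset.insert_eq_cons]
    rwa [h2] at this
  · rintro ⟨i, hi, hiA⟩
    unfold Geo.na
    refine Finset.card_lt_card ?_
    rw [Finset.ssubset_iff_of_subset]
    · refine ⟨i, by simp [hiA], ?_⟩
      intro hmem
      rw [Finset.mem_filter] at hmem
      exact hmem.2 (by simpa [rep, hi] using hAA)
    · intro j hj
      simp only [Finset.mem_filter, Finset.mem_univ, true_and] at hj ⊢
      by_cases hjS : j ∈ S
      · exact absurd hAA (by simpa [rep, hjS] using hj)
      · simpa [rep, hjS] using hj

end Pool.Agent.H94.SC
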